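import Mathlib

/-!
The shifted generating function identity for continuous dual q-Hahn polynomials fails for `n = 1`.
-/

namespace Pool.Agent.Results.MP_93f727_an.Fails

open PowerSeries

/-- The q-Pochhammer symbol `(α; q)_n`. -/
def qPoch {R : Type} [CommRing R] (α q : R) (n : ℕ) : R := ∏ j ∈ Finset.range n, (1 - α * q ^ j)

/-- The recurrence coefficient `d_n`. -/
def dCoef {R : Type} [CommRing R] (a b c q : R) : ℕ → R
  | 0 => a + b + c - a * b * c
  | n + 1 => (a + b + c) * q ^ (n + 1) + a * b * c * q ^ n * (1 - q ^ (n + 1) - q ^ (n + 2))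

/-- The recurrence coefficient `f_n`. -/
def fCoef {R : Type} [CommRing R] (a b c q : R) (n : ℕ) : R :=
  (1 - a * b * q ^ n) * (1 - a * c * q ^ n) * (1 - b * c * q ^ n)

/-- Continuous dual q-Hahn polynomials `ψ_n(x | a, b, c, q)`. -/
def psi {R : Type} [CommRing R] (x a b c q : R) : ℕ → R
  | 0 => 1
  | 1 => 2 * x - dCoef a b c q 0
  | n + 2 => (2 * x - dCoef a b c q (n + 1)) * psi x a b c q (n + 1) -
      (1 - q ^ (n + 1)) * fCoef a b c q n * psi x a b c q n

/-- The q-binomial coefficient. -/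
noncomputable def qBinom (q : ℝ) (n i : ℕ) : ℝ := qPoch q q n / (qPoch q q i * qPoch q q (n - i))

/-- Askey-Wilson polynomial `AW_n(x | a, b, c, t, q)` as a formal power series in `t`. -/
noncomputable def aw (x a b c q : ℝ) (n : ℕ) : ℝ⟦X⟧ :=
  ∑ i ∈ Finset.range (n + 1),
    C (qBinom q n i * (-a) ^ (n - i) * q ^ ((n - i).choose 2)) *
      (qPoch (C (b * c * q ^ i)) (C q) (n - i) * qPoch (C (b * q ^ i) * X) (C q) (n - i) *
        qPoch (C (c * q ^ i) * X) (C q) (n - i)) *
      (qPoch (C (a * b * c * q ^ (n + i - 1)) * X) (C q) (n - i))⁻¹ *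
      psi (C x) (C b) (C c) X (C q) i

/-- The shifted generating function `G_n(t)`. -/
noncomputable def genFun (x a b c q : ℝ) (n : ℕ) : ℝ⟦X⟧ :=
  PowerSeries.mk fun i => psi x a b c q (i + n) / qPoch q q i

theorem result : ∃ (n : ℕ) (a b c q x : ℝ), 1 ≤ n ∧ -1 < q ∧ q < 1 ∧
    genFun x a b c q n ≠ aw x a b c q n *
      (qPoch (C a * X) (C q) n * qPoch (C b * X) (C q) n * qPoch (C c * X) (C q) n)⁻¹ *
        genFun x a b c q 0 := by
  refine ⟨1, 1 / 2, 1 / 2, 1 / 2, 1 / 2, 0, le_rfl, by norm_num, by norm_num, fun h => ?_⟩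
  have h1 := congrArg (coeff 1) h
  have hinv : ∀ φ : ℝ⟦X⟧, constantCoeff φ = 1 → coeff 1 φ⁻¹ = -coeff 1 φ := by
    intro φ hφ
    have h2 := congrArg (coeff 1) (PowerSeries.mul_inv_cancel φ (by rw [hφ]; exact one_ne_zero))
    rw [coeff_one_mul, constantCoeff_inv, hφ, coeff_one, if_neg one_ne_zero] at h2
    linarith
  rw [coeff_one_mul, coeff_one_mul, hinv _ (by simp [qPoch])] at h1
  unfold aw at h1
  simp only [Finset.sum_range_succ, Finset.sum_range_zero, map_add, map_zero, map_mul] at h1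
  simp only [coeff_one_mul, map_mul] at h1
  rw [hinv _ (by simp [qPoch]), hinv _ (by simp [qPoch])] at h1
  simp [genFun, psi, dCoef, fCoef, qPoch, qBinom, coeff_one_mul, coeff_one, coeff_C, coeff_X,
    map_ofNat] at h1
  norm_num at h1

end Pool.Agent.Results.MP_93f727_an.Fails
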